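import Pool.Agent.H40.MIC.Grd2
import Pool.Agent.H55.GEN.GluR

/-!
# The own relation on the window

The line sides of the chains at the grid agree with the path of the line at the time of the sample.
By Remez in the time they are near to the path on the whole window, with a small loss, on an event
of probability near to one.
-/

set_option autoImplicit false

namespace Pool.STAT

open Finset MvPolynomial
open Pool.Agent.H49.Ent Pool.Agent.H32.Dense Pool.STK Pool.KS3 Pool.KA Pool.KSAT Pool.PB Pool.GEN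
open Pool.K2S
open Pool.BFL (Pb)

variable {m J : ℕ}

namespace CLO

/-- The own relation, as a polynomial in the time. -/
noncomputable def ow {F : Fam m J} (c : ℕ → Fin m) (n w : ℕ)
    (H : LnT F → ℕ → MvPolynomial (Option (Fin m)) ℝ) (s : LnT F) (l : ℕ) : Polynomial ℝ :=
  pc c s l - MvPolynomial.aeval (fun k => pc c s k) (Hx c n w H s l)

theorem ow_eval {F : Fam m J} (c : ℕ → Fin m) (n w : ℕ)
    (H : LnT F → ℕ → MvPolynomial (Option (Fin m)) ℝ) (s : LnT F) (l : ℕ) (t : ℝ) :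
    (ow c n w H s l).eval t =
      (pc c s l).eval t - eval (fun k => (pc c s k).eval t) (Hx c n w H s l) := by
  unfold ow
  rw [Polynomial.eval_sub, Pool.UNJ.eval_aeval_poly]

theorem ow_deg {F : Fam m J} {c : ℕ → Fin m} {n w K : ℕ}
    {H : LnT F → ℕ → MvPolynomial (Option (Fin m)) ℝ} {s : LnT F}
    (hK : ∀ i < n, (H s i).totalDegree ≤ K) (l : ℕ) : (ow c n w H s l).natDegree ≤ K + 1 := by
  unfold ow
  refine (Polynomial.natDegree_sub_le _ _).trans (max_le ?_ ?_)
  · exact (pc_deg c s l).trans (Nat.le_add_left _ _)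
  · exact (Pool.UNJ.natDegree_aeval_le _ _ (fun k => pc_deg c s k) (sy_deg hK l)).trans
      (Nat.le_succ _)

/-- The path at the time of the sample. -/
theorem pc_t {F : Fam m J} (c : ℕ → Fin m) (w : ℕ) (ω : F.Ω) (k : ℕ) :
    (pc c (slam F w ω) k).eval (F.t ω) = cx F (fun i => c (i - 1)) ω k := by
  rcases Nat.eq_zero_or_pos k with rfl | hk
  · have h1 : pc c (slam F w ω) 0 = Polynomial.X := if_pos rfl
    have h2 : cx F (fun i => c (i - 1)) ω 0 = F.t ω := if_pos rfl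
    rw [h1, h2, Polynomial.eval_X]
  · have h1 : cx F (fun i => c (i - 1)) ω k = F.x ω (c (k - 1)) := if_neg (by omega)
    have h2 : pc c (slam F w ω) k = Polynomial.C (F.u ω (c (k - 1))) +
        Polynomial.C (F.d ω (c (k - 1))) * Polynomial.X := if_neg (by omega)
    rw [h1, h2, Polynomial.eval_add, Polynomial.eval_mul, Polynomial.eval_C,
      Polynomial.eval_C, Polynomial.eval_X]
    unfold Fam.x
    ring

/-- The own relation at the time of the sample. -/
theorem ow_pos {F : Fam m J} {c : ℕ → Fin m} {n K a w e : ℕ} {g : ℕ → ℕ} {A : F.Ω → Prop}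
    {G : PtT F → ℕ → MvPolynomial (Option (Fin m)) ℝ}
    {H : LnT F → ℕ → MvPolynomial (Option (Fin m)) ℝ} (hw : w ≤ J) (hc : Inj c n)
    (h : ChOK F c n (fun _ => K) a w e g A G H) {ω : F.Ω} (hω : A ω) {l : ℕ} (h1 : 1 ≤ l)
    (hl : l ≤ n) : |(ow c n w H (slam F w ω) l).eval (F.t ω)| ≤ 2 / 2 ^ g (l - 1) := by
  have hR := raw2_of (K := K) hw hc (fun _ _ => le_rfl) h
  rw [ow_eval, pc_t]
  have e1 : (fun k => (pc c (slam F w ω) k).eval (F.t ω)) = cx F (fun i => c (i - 1)) ω :=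
    funext fun k => pc_t c w ω k
  rw [e1]
  obtain ⟨x, hx⟩ : ∃ x, x = cx F (fun i => c (i - 1)) ω := ⟨_, rfl⟩
  rw [← hx]
  have h2 := hR.pos ω hω l h1 hl
  have h3 := hR.near ω hω l h1 hl x (by
    intro k hk
    rcases Nat.eq_zero_or_pos k with rfl | hk0
    · rw [hR.G_zero, eval_C, hx, hR.X_zero ω hω, sub_self, abs_zero]
      positivity
    · rw [gt0_pos _ _ hk0, hx]
      exact hR.pos ω hω k hk0 (by omega))
  rw [← hx] at h2
  have h4 := abs_add_le (x l - eval x (Gx c n G (ptr F J ω) l))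
    (eval x (Gx c n G (ptr F J ω) l) - eval x (Hx c n w H (slam F w ω) l))
  rw [sub_add_sub_cancel] at h4
  refine (h4.trans (add_le_add h2 h3)).trans (le_of_eq ?_)
  rw [← add_div]
  norm_num

/-- Finitely many large events. -/
theorem pe_inter {Ω ι : Type} [Fintype Ω] {q : Ω → ℝ} (hq : IsLaw q) (S : Finset ι)
    (B : ι → Ω → Prop) (δ : ℝ) (h : ∀ i ∈ S, 1 - δ ≤ Pe q (B i)) :
    1 - S.card * δ ≤ Pe q (fun ω => ∀ i ∈ S, B i ω) := by
  classical
  have h1 : ∑ ω, q ω = 1 := hq.sum_one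
  have h2 : ∀ A : Ω → Prop, 1 - Pe q A = ∑ ω, if A ω then 0 else q ω := by
    intro A
    rw [Pool.K2S.Pe_eq, ← h1, ← Finset.sum_sub_distrib]
    refine Finset.sum_congr rfl fun ω _ => ?_
    split_ifs <;> ring
  have h3 : 1 - Pe q (fun ω => ∀ i ∈ S, B i ω) ≤ ∑ i ∈ S, (1 - Pe q (B i)) := by
    rw [h2, Finset.sum_congr rfl fun i _ => h2 (B i), Finset.sum_comm]
    refine Finset.sum_le_sum fun ω _ => ?_
    have h0 : ∀ i ∈ S, 0 ≤ (if B i ω then 0 else q ω) := fun i _ => by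
      split_ifs
      · exact le_rfl
      · exact hq.nonneg ω
    by_cases hB : ∀ i ∈ S, B i ω
    · rw [if_pos hB]
      exact Finset.sum_nonneg h0
    · rw [if_neg hB]
      push Not at hB
      obtain ⟨i, hi, hi'⟩ := hB
      refine le_trans (le_of_eq ?_) (Finset.single_le_sum h0 hi)
      rw [if_neg hi']
  have h4 : ∑ i ∈ S, (1 - Pe q (B i)) ≤ ∑ _i ∈ S, δ := Finset.sum_le_sum fun i hi => by
    have := h i hi
    linarith
  rw [Finset.sum_const, nsmul_eq_mul] at h4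
  linarith

/-- **The own relation on the window.** -/
theorem own_fam (n K K' s₁ M : ℕ) (η : ℝ) (hη : 0 < η) : ∃ C : ℝ, 1 ≤ C ∧ ∀ {m J : ℕ}
    {F : Fam m J} {D : GDat F} {c : ℕ → Fin m} {sh : ℕ → ℕ} {a₀ w₀ z z' : ℕ} {e : ℕ → ℕ → ℕ}
    {g : ℕ → ℕ → ℕ → ℕ} {B : F.Ω → Prop} {q : F.Ω → ℝ} {E : ℝ},
    D.Ok c n K K' s₁ sh a₀ w₀ z M e g B → Inj c n → IsLaw q → (∀ ω, 0 < q ω → B ω) →
    w₀ + M * z + z' ≤ J → 1 ≤ E →
    ((J : ℝ) - w₀) * Real.log 2 - E ≤ CH q F.T (slam F w₀) → C * E ≤ z' →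
    ∃ A : F.Ω → Prop, (∀ ω, A ω → 0 < q ω) ∧ 1 - η ≤ Pb q A ∧ ∀ ω, A ω → ∀ i ≤ M, ∀ j ≤ M,
      ∀ l, 1 ≤ l → l ≤ n → ∀ t : ℝ, |t - F.t ω| ≤ 1 / 2 ^ (w₀ + j * z) →
      |(pc c (slam F w₀ ω) l).eval t - eval (fun k => (pc c (slam F w₀ ω) k).eval t)
        (Hx c n (w₀ + j * z) (D.H i j) (slam F (w₀ + j * z) ω) l)| ≤
          2 ^ (3 * z') / 2 ^ g i j (l - 1) := by
  classical
  obtain ⟨η', hη'⟩ : ∃ η' : ℝ, η' = min η 1 / (M + 1) := ⟨_, rfl⟩
  have hM : (0 : ℝ) < M + 1 := by positivity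
  have hη0 : 0 < η' := by
    rw [hη']
    exact div_pos (lt_min hη one_pos) hM
  have hη1 : η' ≤ 1 := by
    rw [hη', div_le_one hM]
    have := min_le_right η (1 : ℝ)
    have h0 : (0 : ℝ) ≤ M := Nat.cast_nonneg _
    linarith
  have hη2 : (M + 1) * η' ≤ η := by
    rw [hη', mul_div_cancel₀ _ hM.ne']
    exact min_le_left _ _
  obtain ⟨C, hC, hrm⟩ := Glu.rmz_det (K + 1) (Fin (M + 1) × Fin n) η' hη0
  refine ⟨C, hC, ?_⟩
  intro m J F D c sh a₀ w₀ z z' e g B q E hD hc hq hB hJ hE hT hCE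
  have hz1 : 1 ≤ z' := by
    have h1 : (1 : ℝ) ≤ z' := by nlinarith
    exact_mod_cast h1
  have hwj : ∀ j ≤ M, w₀ + j * z + z' ≤ J := fun j hj =>
    (Nat.add_le_add_right (Nat.add_le_add_left (Nat.mul_le_mul_right z hj) w₀) z').trans hJ
  have hAt : η' ≤ Pe q (fun _ => True) := by
    rw [Pool.K2S.Pe_eq]
    simp only [if_true]
    rw [hq.sum_one]
    exact hη1
  have hev : ∀ j, ∃ Bj : F.Ω → Prop, j ≤ M → (∀ ω, Bj ω → 0 < q ω) ∧ 1 - η' / 2 ≤ Pe q Bj ∧
      ∀ ω, Bj ω → ∀ t : ℝ, |t - F.t ω| ≤ 1 / 2 ^ (w₀ + j * z) → ∀ i ≤ M, ∀ l, 1 ≤ l → l ≤ n →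
        |(ow c n (w₀ + j * z) (D.H i j) (slam F (w₀ + j * z) ω) l).eval t| ≤
          2 ^ (3 * z') / 2 ^ g i j (l - 1) := by
    intro j
    by_cases hj : j ≤ M
    · have hw := hwj j hj
      have hd : Det q (slam F w₀) (fun ω => F.T ω / 2 ^ (J - w₀)) := fun ω ω' _ _ h =>
        congrArg (fun s => s.2.2) h
      have h1 := Glu.time_cell (T := F.T) (r := w₀ + j * z) hq (by omega : w₀ ≤ w₀ + j * z)
        (by omega) hd (by
          rw [Nat.cast_sub (by omega)]
          exact hT)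
      have h2 : CH q F.T (fun ω => (slam F w₀ ω, F.T ω / 2 ^ (J - (w₀ + j * z)))) ≤
          CH q F.T (slam F (w₀ + j * z)) := by
        refine CH_mono_cond hq.nonneg fun ω ω' _ _ h => ?_
        have e1 := congrArg (fun x => x.1.1) h
        have e2 := congrArg (fun x => x.1.2.1) h
        have e3 := congrArg Prod.snd h
        exact Prod.ext e1 (Prod.ext e2 e3)
      obtain ⟨Bj, hb1, hb2, hb3⟩ := hrm J (w₀ + j * z) z' F.Ω (LnT F) q F.T
        (slam F (w₀ + j * z)) (fun _ => True) E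
        (fun a ω => Polynomial.C ((2 : ℝ) ^ g a.1 j a.2 / 2) *
          ow c n (w₀ + j * z) (D.H a.1 j) (slam F (w₀ + j * z) ω) (a.2 + 1)) hq F.tim hw
        (fun ω ω' _ _ h => congrArg (fun s => s.2.2) h) hAt hE (h1.trans h2) hCE
        (fun a ω ω' _ _ h => by
          simp only
          rw [h])
        (fun a ω _ => (Polynomial.natDegree_C_mul_le _ _).trans
          (ow_deg (fun i _ => (hD.chn a.1 (by have := a.1.2; omega) j hj).degH _ i) _))
        (fun a ω hω _ => by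
          rw [Polynomial.eval_mul, Polynomial.eval_C, abs_mul, abs_of_pos (by positivity)]
          have h3 := ow_pos (by omega) hc (hD.chn a.1 (by have := a.1.2; omega) j hj)
            (hB ω hω) (l := a.2 + 1) (by omega) (by have := a.2.2; omega)
          rw [Nat.add_sub_cancel] at h3
          have h4 : (0 : ℝ) < 2 ^ g a.1 j a.2 := by positivity
          rw [le_div_iff₀ h4] at h3
          have h5 : (F.t ω) = (F.T ω : ℝ) / 2 ^ J := rfl
          rw [h5] at h3
          linarith)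
      refine ⟨Bj, fun _ => ⟨fun ω hω => (hb1 ω hω).1, ?_, ?_⟩⟩
      · have h3 : Pe q (fun _ => True) = 1 := by
          rw [Pool.K2S.Pe_eq]
          simp only [if_true]
          exact hq.sum_one
        rw [h3] at hb2
        exact hb2
      · intro ω hω t ht i hi l hl1 hln
        have h3 := hb3 ω hω t ht (⟨i, by omega⟩, ⟨l - 1, by omega⟩)
        simp only at h3
        rw [Nat.sub_add_cancel hl1, Polynomial.eval_mul, Polynomial.eval_C, abs_mul,
          abs_of_pos (by positivity)] at h3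
        have h4 : (0 : ℝ) < 2 ^ g i j (l - 1) := by positivity
        rw [le_div_iff₀ h4]
        have h5 : (2 : ℝ) ^ (3 * z') = 2 ^ z' * 2 ^ (2 * z') := by
          rw [← pow_add]
          congr 1
          ring
        have h6 : (2 : ℝ) ≤ 2 ^ z' := by
          calc (2 : ℝ) = 2 ^ 1 := (pow_one _).symm
            _ ≤ 2 ^ z' := pow_le_pow_right₀ (by norm_num) hz1
        have h7 : (0 : ℝ) < 2 ^ (2 * z') := by positivity
        rw [h5]
        nlinarith
    · exact ⟨fun _ => True, fun h => absurd h hj⟩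
  choose Bj hBj using hev
  refine ⟨fun ω => ∀ j ∈ range (M + 1), Bj j ω, fun ω hω =>
    (hBj 0 (Nat.zero_le _)).1 ω (hω 0 (mem_range.2 (by omega))), ?_, ?_⟩
  · rw [Glu.Pb_eq_Pe]
    have h1 := pe_inter hq (range (M + 1)) Bj (η' / 2) fun j hj =>
      (hBj j (by rw [mem_range] at hj; omega)).2.1
    rw [card_range] at h1
    refine le_trans ?_ h1
    push_cast
    nlinarith
  · intro ω hω i hi j hj l hl1 hln t ht
    have h1 := (hBj j hj).2.2 ω (hω j (mem_range.2 (by omega))) t ht i hi l hl1 hln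
    rw [ow_eval] at h1
    exact h1

end CLO

end Pool.STAT
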