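import Pool.Agent.H63.STAT.Clo
import Pool.Agent.H68.STAT.Net
import Pool.Agent.H72.PATH

/-!
# The count by maximal volume

A family of polynomials of degree at most `D` in `k` parameters, indexed by any finite set and
depending on the value of `y`: the parameters of a sample are such that all values are at most `L`.
Then all values are known up to a constant from few bits given `y`, the number of the bits being
independent of the size of the family.
-/

set_option autoImplicit false

namespace Pool.STAT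

open Finset MvPolynomial
open Pool.Agent.H49.Ent Pool.Agent.H32.Dense Pool.STK Pool.KA Pool.K2S

namespace CLO

/-- The value of a polynomial as a sum over a fixed set of exponents. -/
theorem eval_ex {F : PN} {k D : ℕ} (hv : F.vars ⊆ range k) (hD : F.totalDegree ≤ D)
    (x : ℕ → ℝ) : eval x F = ∑ e ∈ ex k D, F.coeff e * ∏ j ∈ e.support, x j ^ e j := by
  rw [eval_eq]
  refine Finset.sum_subset (supp_ex hv hD) fun e _ he => ?_
  rw [notMem_support_iff.1 he, zero_mul]

/-- **The count by maximal volume.** -/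
theorem vol_ctx (k D : ℕ) : ∃ N₀ : ℕ, ∀ {Ω Y ι : Type} [Fintype Ω] [Finite ι] {q : Ω → ℝ},
    IsLaw q → ∀ (y : Ω → Y) (par : Ω → ℕ → ℝ) (P : Y → ι → PN) (L : ℝ), 1 ≤ L →
    (∀ v i, (P v i).vars ⊆ range k) → (∀ v i, (P v i).totalDegree ≤ D) →
    (∀ ω, 0 < q ω → ∀ i, |eval (par ω) (P (y ω) i)| ≤ L) →
    ∃ u : Ω → ℕ → ℤ, CH q u y ≤ N₀ * Real.log (2 * L + 3) ∧
      ∀ ω ω', 0 < q ω → 0 < q ω' → y ω = y ω' → u ω = u ω' → ∀ i,
        |eval (par ω) (P (y ω) i) - eval (par ω') (P (y ω') i)| ≤ N₀ := by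
  classical
  obtain ⟨c, hc⟩ : ∃ c, c = (ex k D).card := ⟨_, rfl⟩
  refine ⟨2 * c, ?_⟩
  intro Ω Y ι _ _ q hq y par P L hL hv hD hP
  have hmv : ∀ v : Y, ∃ (n : ℕ) (f : Fin n → ι), n ≤ c ∧ ∀ i, ∃ a : Fin n → ℝ,
      (∀ r, |a r| ≤ 1) ∧ ∀ x : ℕ → ℝ, eval x (P v i) = ∑ r, a r * eval x (P v (f r)) := by
    intro v
    obtain ⟨n, f, hn, h⟩ := Pool.H72.PATH.maxvol
      (fun i => fun e : ↥(ex k D) => (P v i).coeff e.1)
    refine ⟨n, f, ?_, fun i => ?_⟩
    · rw [Module.finrank_fintype_fun_eq_card, Fintype.card_coe] at hn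
      rw [hc]
      exact hn
    · obtain ⟨a, ha, hi⟩ := h i
      refine ⟨a, ha, fun x => ?_⟩
      rw [eval_ex (hv v i) (hD v i) x]
      have e1 : ∀ r, a r * eval x (P v (f r)) =
          ∑ e ∈ ex k D, a r * (P v (f r)).coeff e * ∏ j ∈ e.support, x j ^ e j := by
        intro r
        rw [eval_ex (hv v _) (hD v _) x, Finset.mul_sum]
        exact Finset.sum_congr rfl fun _ _ => by ring
      rw [Finset.sum_congr rfl fun r _ => e1 r, Finset.sum_comm]
      refine Finset.sum_congr rfl fun e he => ?_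
      have e2 : (P v i).coeff e = ∑ r, a r * (P v (f r)).coeff e := by
        have e3 := congrFun hi ⟨e, he⟩
        simp only [Finset.sum_apply, Pi.smul_apply, smul_eq_mul] at e3
        exact e3
      rw [e2, Finset.sum_mul]
  choose n f hn h using hmv
  obtain ⟨u, hu⟩ : ∃ u : Ω → ℕ → ℤ, u = fun ω r =>
      if hr : r < n (y ω) then ⌊eval (par ω) (P (y ω) (f (y ω) ⟨r, hr⟩))⌋ else 0 := ⟨_, rfl⟩
  refine ⟨u, ?_, ?_⟩
  · have h1 := Net.ch_fin hq (range c) u y (L := 2 * L + 1) (fun ω _ r hr => by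
      rw [hu]
      exact dif_neg fun h2 => hr (mem_range.2 (h2.trans_le (hn _))))
      (fun ω ω' hω hω' e r => by
        have hu1 : u ω r = if hr : r < n (y ω) then
            ⌊eval (par ω) (P (y ω) (f (y ω) ⟨r, hr⟩))⌋ else 0 := by rw [hu]
        have hu2 : u ω' r = if hr : r < n (y ω) then
            ⌊eval (par ω') (P (y ω) (f (y ω) ⟨r, hr⟩))⌋ else 0 := by
          rw [hu]
          simp only
          rw [← e]
        by_cases hr : r < n (y ω)
        · rw [dif_pos hr] at hu1 hu2
          have h2 := hP ω hω (f (y ω) ⟨r, hr⟩)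
          have h3 := hP ω' hω' (f (y ω) ⟨r, hr⟩)
          rw [← e] at h3
          rw [hu1, hu2]
          push_cast
          rw [abs_le] at h2 h3 ⊢
          have e1 := Int.floor_le (eval (par ω) (P (y ω) (f (y ω) ⟨r, hr⟩)))
          have e2 := Int.lt_floor_add_one (eval (par ω) (P (y ω) (f (y ω) ⟨r, hr⟩)))
          have e3 := Int.floor_le (eval (par ω') (P (y ω) (f (y ω) ⟨r, hr⟩)))
          have e4 := Int.lt_floor_add_one (eval (par ω') (P (y ω) (f (y ω) ⟨r, hr⟩)))
          constructor <;> linarith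
        · rw [dif_neg hr] at hu1 hu2
          rw [hu1, hu2, sub_self, Int.cast_zero, abs_zero]
          linarith)
    rw [card_range] at h1
    refine h1.trans ?_
    have h2 : Real.log (2 * (2 * L + 1) + 1) ≤ 2 * Real.log (2 * L + 3) := by
      rw [← Real.log_rpow (by linarith), Real.rpow_two]
      exact Real.log_le_log (by linarith) (by nlinarith)
    push_cast
    calc (c : ℝ) * Real.log (2 * (2 * L + 1) + 1) ≤ c * (2 * Real.log (2 * L + 3)) :=
          mul_le_mul_of_nonneg_left h2 (Nat.cast_nonneg _)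
      _ = 2 * c * Real.log (2 * L + 3) := by ring
  · intro ω ω' hω hω' e hue i
    rw [← e]
    obtain ⟨a, ha, hi⟩ := h (y ω) i
    rw [hi, hi, ← Finset.sum_sub_distrib]
    refine (Finset.abs_sum_le_sum_abs _ _).trans ?_
    have h1 : ∀ r : Fin (n (y ω)), |a r * eval (par ω) (P (y ω) (f (y ω) r)) -
        a r * eval (par ω') (P (y ω) (f (y ω) r))| ≤ 1 := by
      intro r
      rw [← mul_sub, abs_mul]
      have h2 : |eval (par ω) (P (y ω) (f (y ω) r)) -
          eval (par ω') (P (y ω) (f (y ω) r))| ≤ 1 := by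
        have hu1 : u ω r = ⌊eval (par ω) (P (y ω) (f (y ω) r))⌋ := by
          rw [hu]
          exact dif_pos r.2
        have hu2 : u ω' r = ⌊eval (par ω') (P (y ω) (f (y ω) r))⌋ := by
          rw [hu]
          simp only
          rw [← e]
          exact dif_pos r.2
        have h3 := congrFun hue (r : ℕ)
        rw [hu1, hu2] at h3
        exact (Int.abs_sub_lt_one_of_floor_eq_floor h3).le
      calc |a r| * |eval (par ω) (P (y ω) (f (y ω) r)) -
            eval (par ω') (P (y ω) (f (y ω) r))| ≤ 1 * 1 :=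
            mul_le_mul (ha r) h2 (abs_nonneg _) zero_le_one
        _ = 1 := one_mul 1
    refine (Finset.sum_le_sum fun r _ => h1 r).trans ?_
    rw [Finset.sum_const, card_univ, Fintype.card_fin, nsmul_eq_mul, mul_one]
    have h4 : (n (y ω) : ℝ) ≤ c := by exact_mod_cast hn (y ω)
    push_cast
    have h5 : (0 : ℝ) ≤ c := Nat.cast_nonneg _
    linarith

end CLO

end Pool.STAT
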