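import Pool.Agent.H63.STAT.Clo
import Pool.Agent.H35.SYS.Nat

/-!
# Increments on natural boxes

A polynomial in the first `i` variables which is bounded by `S` on the natural box of a triangular
system has increments at most `C S δ` between two points of the (dilated) natural box whose natural
coordinates differ by at most `δ`. In particular its increments on a box which is `s` digits
smaller (with the same time) are at most `C S 2^(-s)`.
-/

set_option autoImplicit false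

namespace Pool.STAT

open Finset MvPolynomial
open Pool.Agent.H49.Ent Pool.Agent.H32.Dense Pool.STK Pool.KA Pool.K2S

namespace CLO

/-- The increments of a polynomial on the dilated cube. -/
theorem lip_n1 {F : PN} {i K : ℕ} {ρ δ : ℝ} {y y' : ℕ → ℝ} (hρ : 1 ≤ ρ) (hδ : 0 ≤ δ)
    (hv : F.vars ⊆ range i) (hK : F.totalDegree ≤ K) (hy : ∀ j < i, |y j| ≤ ρ)
    (hy' : ∀ j < i, |y' j| ≤ ρ) (h : ∀ j < i, |y j - y' j| ≤ δ) :
    |eval y F - eval y' F| ≤ K * ρ ^ K * n1 F * δ := by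
  have h1 := Pool.SYS35.lip_eval (d := fun _ => 1) (fun _ => le_rfl) (F := F) (D := K)
    (fun k hk => by
      rw [Finsupp.weight_apply]
      have h2 := (le_totalDegree hk).trans hK
      refine le_trans (le_of_eq ?_) h2
      exact Finsupp.sum_congr fun _ _ => by rw [smul_eq_mul, mul_one])
    (ρ := 1) (B := ρ) (ε := δ) one_pos hρ hδ (Y := y) (Y' := y')
    (fun j hj => by
      rw [mul_one, pow_one]
      exact hy j (mem_range.1 (hv hj)))
    (fun j hj => by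
      rw [mul_one, pow_one]
      exact hy' j (mem_range.1 (hv hj)))
    (fun j hj => by
      rw [one_pow, one_mul]
      exact h j (mem_range.1 (hv hj)))
  exact h1

/-- **Increments on natural boxes**, in natural coordinates. -/
theorem inc_nc (n K : ℕ) : ∃ C : ℝ, 1 ≤ C ∧ ∀ (Φ : ℕ → PN) (g : ℕ → ℕ) (F : PN) (i : ℕ)
    (S ρ δ : ℝ), TriN Φ → (∀ j, (Φ j).totalDegree ≤ K) → i ≤ n → F.vars ⊆ range i →
    F.totalDegree ≤ K → 1 ≤ ρ → 0 ≤ δ → (∀ b : ℕ → ℝ, Bxr 1 g Φ i b → |eval b F| ≤ S) →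
    ∀ b p : ℕ → ℝ, Bxr ρ g Φ i b → Bxr ρ g Φ i p →
    (∀ j < i, |nc g Φ b j - nc g Φ p j| ≤ δ) →
    |eval b F - eval p F| ≤ C * S * ρ ^ (K * (K + 1) ^ (n + 1)) * δ := by
  obtain ⟨C, hC, h⟩ := n1_of_box n K
  obtain ⟨D, hD⟩ : ∃ D, D = K * (K + 1) ^ (n + 1) := ⟨_, rfl⟩
  refine ⟨D * C + 1, by nlinarith [Nat.cast_nonneg (α := ℝ) D], ?_⟩
  intro Φ g F i S ρ δ hΦ hK hi hv hF hρ hδ hS b p hb hp hbp
  obtain ⟨h2, h3⟩ := nat_deg hΦ hK g hi hv hF
  have hS0 : 0 ≤ S := (abs_nonneg _).trans (hS _ (box_nuc hΦ g (fun _ => (0 : ℝ))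
    (ρ := 1) fun j _ => by
      rw [abs_zero]
      exact zero_le_one))
  rw [eval_nat hΦ g b F, eval_nat hΦ g p F]
  refine (lip_n1 hρ hδ h2 h3 (fun j hj => nc_le.2 (hb j hj)) (fun j hj => nc_le.2 (hp j hj))
    hbp).trans ?_
  rw [← hD]
  have h4 := h Φ g F i S hΦ hK hi hv hF hS
  have h5 : (0 : ℝ) ≤ ρ ^ D := by positivity
  refine mul_le_mul_of_nonneg_right ?_ hδ
  calc (D : ℝ) * ρ ^ D * n1 (bind₁ (nuc g Φ) F) ≤ D * ρ ^ D * (C * S) :=
        mul_le_mul_of_nonneg_left h4 (by positivity)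
    _ = D * C * S * ρ ^ D := by ring
    _ ≤ (D * C + 1) * S * ρ ^ D := by
        refine mul_le_mul_of_nonneg_right ?_ h5
        nlinarith

/-- **Increments on natural boxes**, in heights. -/
theorem inc (n K : ℕ) : ∃ C : ℝ, 1 ≤ C ∧ ∀ (Φ : ℕ → PN) (g : ℕ → ℕ) (Q : PN) (l : ℕ)
    (S R δ : ℝ), TriN Φ → (∀ i, (Φ i).totalDegree ≤ K) → l ≤ n → Q.vars ⊆ range l →
    Q.totalDegree ≤ K → 1 ≤ R → 0 ≤ S → 0 ≤ δ →
    (∀ b : ℕ → ℝ, Bxr 1 g Φ l b → |eval b Q| ≤ S) →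
    ∀ b p : ℕ → ℝ, Bxr R g Φ l b → Bxr R g Φ l p →
    (∀ k < l, |(b k - eval b (Φ k)) - (p k - eval p (Φ k))| ≤ δ / 2 ^ g k) →
    |eval b Q - eval p Q| ≤ C * S * R ^ (K * (K + 1) ^ (n + 1)) * δ := by
  obtain ⟨C, hC, h⟩ := inc_nc n K
  refine ⟨C, hC, ?_⟩
  intro Φ g Q l S R δ hΦ hK hl hv hQ hR _ hδ hS b p hb hp hbp
  refine h Φ g Q l S R δ hΦ hK hl hv hQ hR hδ hS b p hb hp fun k hk => ?_
  have h1 := hbp k hk
  have h2 : (0 : ℝ) < 2 ^ g k := by positivity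
  rw [le_div_iff₀ h2] at h1
  unfold nc
  rw [← mul_sub, abs_mul, abs_of_pos h2, mul_comm]
  exact h1

/-- **Increments on smaller natural boxes**: the points have the same time and the box is smaller
by the factor `δ` in the other coordinates. -/
theorem inc_box (n K : ℕ) : ∃ C : ℝ, 1 ≤ C ∧ ∀ (Φ : ℕ → PN) (g g' : ℕ → ℕ) (Q : PN) (l : ℕ)
    (S R δ : ℝ), TriN Φ → (∀ i, (Φ i).totalDegree ≤ K) → l ≤ n → Q.vars ⊆ range l →
    Q.totalDegree ≤ K → 1 ≤ R → 0 ≤ S → 0 ≤ δ →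
    (∀ b : ℕ → ℝ, Bxr 1 g Φ l b → |eval b Q| ≤ S) →
    (∀ k < l, g k ≤ g' k) → (∀ k, 1 ≤ k → k < l → (2 : ℝ) ^ g k ≤ δ * 2 ^ g' k) →
    ∀ b p : ℕ → ℝ, Bxr R g' Φ l b → Bxr R g' Φ l p → b 0 = p 0 →
    |eval b Q - eval p Q| ≤ C * S * R ^ (K * (K + 1) ^ (n + 1) + 1) * δ := by
  obtain ⟨C, hC, h⟩ := inc n K
  refine ⟨C * 2, by linarith, ?_⟩
  intro Φ g g' Q l S R δ hΦ hK hl hv hQ hR hS0 hδ hS hg hg' b p hb hp hbp
  have hR0 : 0 ≤ R := zero_le_one.trans hR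
  have hbox : ∀ {x : ℕ → ℝ}, Bxr R g' Φ l x → Bxr R g Φ l x := fun hx k hk =>
    (hx k hk).trans (div_le_div_of_nonneg_left hR0 (by positivity)
      (pow_le_pow_right₀ (by norm_num) (hg k hk)))
  have hht : ∀ {x : ℕ → ℝ}, Bxr R g' Φ l x → ∀ k, 1 ≤ k → k < l →
      |x k - eval x (Φ k)| ≤ R * δ / 2 ^ g k := by
    intro x hx k h1 hk
    refine (hx k hk).trans ?_
    rw [div_le_div_iff₀ (by positivity) (by positivity), mul_assoc]
    exact mul_le_mul_of_nonneg_left (hg' k h1 hk) hR0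
  have h1 := h Φ g Q l S R (2 * R * δ) hΦ hK hl hv hQ hR hS0 (by positivity) hS b p (hbox hb)
    (hbox hp) (fun k hk => by
      rcases Nat.eq_zero_or_pos k with rfl | hk0
      · have e2 : eval b (Φ 0) = eval p (Φ 0) :=
          Pool.SYS35.eval_congr (n := 0) (hΦ 0) fun j hj => absurd hj (Nat.not_lt_zero _)
        rw [e2, hbp, sub_self, abs_zero]
        positivity
      · have e1 := hht hb k hk0 hk
        have e2 := hht hp k hk0 hk
        refine (abs_sub _ _).trans ?_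
        refine (add_le_add e1 e2).trans (le_of_eq ?_)
        ring)
  refine h1.trans (le_of_eq ?_)
  rw [pow_succ]
  ring

end CLO

end Pool.STAT
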